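import Mathlib

set_option autoImplicit false

namespace Pool.Agent.Results.MP_3923f3_nt.LowerBound

def Admissible (a b c d : ℤ) : Prop :=
  a ≠ 0 ∧ b ≠ 0 ∧ c ≠ 0 ∧ ¬ (0 < a ∧ 0 < b ∧ 0 < c) ∧ ¬ (a < 0 ∧ b < 0 ∧ c < 0) ∧
    Even (a + b + c - d) ∧ gcd (gcd a b) c = 1 ∧ gcd (gcd d a) b = 1 ∧ gcd (gcd d a) c = 1 ∧
    gcd (gcd d b) c = 1

def Good (μ : ℝ) : Prop :=
  ∀ a b c d : ℤ, Admissible a b c d → ∃ p q r : ℕ, p.Prime ∧ q.Prime ∧ r.Prime ∧
    a * p + b * q + c * r = d ∧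
    ((max p (max q r) : ℕ) : ℝ) ≤
      3 * ((|d| : ℤ) : ℝ) + ((max 3 (max |a| (max |b| |c|)) : ℤ) : ℝ) ^ μ

theorem result : (7 / 3 : ℝ) < Real.log 13 / Real.log 3 ∧
    ∀ μ : ℝ, Good μ → Real.log 13 / Real.log 3 ≤ μ := by
  have h3 : 0 < Real.log 3 := Real.log_pos (by norm_num)
  constructor
  · rw [lt_div_iff₀ h3]
    have h1 : Real.log (3 ^ 7) < Real.log (13 ^ 3) := Real.log_lt_log (by norm_num) (by norm_num)
    rw [Real.log_pow, Real.log_pow] at h1
    push_cast at h1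
    linarith
  · intro μ hμ
    obtain ⟨p, q, r, hp, hq, hr, he, hm⟩ := hμ 3 2 (-1) 0 (by unfold Admissible; decide)
    have h1 : r = 3 * p + 2 * q := by omega
    have h2 : 13 ≤ r := by
      have := hp.two_le
      have := hq.two_le
      by_contra h
      have h4 : p = 2 := by omega
      have h5 : q = 2 ∨ q = 3 := by omega
      rcases h5 with h5 | h5 <;> subst h4 h5 <;> rw [h1] at hr <;> norm_num at hr
    have h4 : (13 : ℝ) ≤ ((max p (max q r) : ℕ) : ℝ) := by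
      exact_mod_cast le_trans h2 (le_trans (le_max_right _ _) (le_max_right _ _))
    norm_num at hm h4
    have h5 : (13 : ℝ) ≤ 3 ^ μ := by
      have : (13 : ℝ) ≤ r := by exact_mod_cast h2
      linarith [hm.2.2]
    rw [div_le_iff₀ h3, ← Real.log_rpow (by norm_num)]
    exact Real.log_le_log (by norm_num) h5

end Pool.Agent.Results.MP_3923f3_nt.LowerBound
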